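import Pool.Agent.Helper30.DL.GoalsA

/-!
# Pielou's equation, packet EXTU: one step upwards
-/

set_option autoImplicit false

open Filter Topology Finset

namespace Pool.Agent.Helper55.DL

open Pool.Agent.Helper30.DL

/-- the factor -/
noncomputable def ph (p m0 x : ℝ) : ℝ := 1 - p + p * max m0 x

section

variable {k : ℕ} {p m0 B g : ℝ} {X : ℕ → ℝ}

theorem ph_le_one (hp : 0 < p) (hm1 : m0 ≤ 1) {x : ℝ} (hx : x ≤ 1) : ph p m0 x ≤ 1 := by
  unfold ph
  have h1 := mul_le_mul_of_nonneg_left (max_le hm1 hx) hp.le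
  linarith

theorem le_ph (hp : 0 < p) (x : ℝ) : 1 - p + p * m0 ≤ ph p m0 x := by
  unfold ph
  have h1 := mul_le_mul_of_nonneg_left (le_max_left m0 x) hp.le
  linarith

/-- the inequality for all values of `A` -/
theorem ext_all (hp : 0 < p) (hm1 : m0 ≤ 1) (hB : 0 ≤ B)
    (hg : g = 1 - p + p * m0) (hg0 : 0 < g) (hg1 : g ≤ 1)
    (h : ∀ A, g ≤ A → A ≤ 1 → m0 ≤ A → A ≤ B * ∏ i ∈ range (k + 1), ph p m0 (A * g ^ i)) :
    ∀ (j : ℕ) (A : ℝ), g ^ (j + 1) ≤ A → m0 ≤ A → A ≤ 1 →
      A ≤ B * ∏ i ∈ range (k + 1), ph p m0 (A * g ^ i) := by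
  intro j
  induction j with
  | zero =>
    intro A hA hmA hA1
    rw [zero_add, pow_one] at hA
    exact h A hA hA1 hmA
  | succ j ih =>
    intro A hA hmA hA1
    by_cases hgA : g ≤ A
    · exact h A hgA hA1 hmA
    push Not at hgA
    have hA0 : 0 < A := lt_of_lt_of_le (pow_pos hg0 _) hA
    obtain ⟨A', hA'⟩ : ∃ A', A = A' * g := ⟨A / g, (div_mul_cancel₀ _ hg0.ne').symm⟩
    have h1 : g ^ (j + 1) ≤ A' := by
      have : g ^ (j + 1) * g ≤ A' * g := by
        rw [← pow_succ, ← hA']
        exact hA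
      exact le_of_mul_le_mul_right this hg0
    have hA'0 : 0 < A' := lt_of_lt_of_le (pow_pos hg0 _) h1
    have h2 : A' ≤ 1 := by
      have : A' * g ≤ 1 * g := by
        rw [← hA', one_mul]
        exact hgA.le
      exact le_of_mul_le_mul_right this hg0
    have h3 : m0 ≤ A' := by
      refine hmA.trans ?_
      rw [hA']
      exact mul_le_of_le_one_right hA'0.le hg1
    have h4 := ih A' h1 h3 h2
    have e1 : ∏ i ∈ range (k + 1), ph p m0 (A' * g ^ i) =
        (∏ i ∈ range k, ph p m0 (A * g ^ i)) * ph p m0 A' := by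
      rw [Finset.prod_range_succ']
      congr 1
      · refine Finset.prod_congr rfl fun i _ => ?_
        rw [hA', pow_succ]
        congr 1
        ring
      · rw [pow_zero, mul_one]
    have hph : ∀ x, 0 < ph p m0 x := fun x => lt_of_lt_of_le hg0 (hg ▸ le_ph hp x)
    have hpr : 0 ≤ ∏ i ∈ range k, ph p m0 (A * g ^ i) :=
      Finset.prod_nonneg fun i _ => (hph _).le
    calc A = A' * g := hA'
      _ ≤ (B * ∏ i ∈ range (k + 1), ph p m0 (A' * g ^ i)) * g :=
          mul_le_mul_of_nonneg_right h4 hg0.le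
      _ = B * ((∏ i ∈ range k, ph p m0 (A * g ^ i)) * (ph p m0 A' * g)) := by
          rw [e1]; ring
      _ ≤ B * ((∏ i ∈ range k, ph p m0 (A * g ^ i)) * ph p m0 (A * g ^ k)) := by
          apply mul_le_mul_of_nonneg_left _ hB
          apply mul_le_mul_of_nonneg_left _ hpr
          calc ph p m0 A' * g ≤ 1 * g :=
                mul_le_mul_of_nonneg_right (ph_le_one hp hm1 h2) hg0.le
            _ = g := one_mul g
            _ ≤ ph p m0 (A * g ^ k) := hg ▸ le_ph hp _
      _ = _ := by rw [← Finset.prod_range_succ]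

/-- the iterated recurrence -/
theorem iter (hX : SolX k p X) (L : ℕ) : ∀ m : ℕ,
    X (L + m + k) * ∏ j ∈ range m, (1 - p + p * X (L + j)) = X (L + k) := by
  intro m
  induction m with
  | zero => simp
  | succ m ih =>
    rw [Finset.prod_range_succ]
    have h1 := hX.2 (L + m)
    have e : L + (m + 1) + k = L + m + k + 1 := by ring
    rw [e]
    calc X (L + m + k + 1) * ((∏ j ∈ range m, (1 - p + p * X (L + j))) *
          (1 - p + p * X (L + m)))
        = (X (L + m + k + 1) * (1 - p + p * X (L + m))) *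
          ∏ j ∈ range m, (1 - p + p * X (L + j)) := by ring
      _ = _ := by rw [h1, ih]

theorem claim (hp : 0 < p) (hp1 : p < 1) (hm0 : 0 ≤ m0) (hm1 : m0 ≤ 1) (hB : 1 ≤ B)
    (hX : SolX k p X)
    (h : ∀ A, 1 - p + p * m0 ≤ A → A ≤ 1 → m0 ≤ A →
        A ≤ B * ∏ i ∈ range (k + 1), (1 - p + p * max m0 (A * (1 - p + p * m0) ^ i)))
    {N0 : ℕ} (hN : ∀ n, N0 ≤ n → m0 ≤ X n) {L : ℕ} (hL : N0 + k ≤ L)
    (hinc : X (L + 2 * k) ≤ X (L + 2 * k + 1)) : X (L + 2 * k + 1) ≤ B := by
  set g : ℝ := 1 - p + p * m0 with hg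
  have hg0 : 0 < g := by
    have := mul_nonneg hp.le hm0
    linarith
  have hg1 : g ≤ 1 := by
    have := mul_le_mul_of_nonneg_left hm1 hp.le
    linarith
  have hph : ∀ x, 0 < ph p m0 x := fun x => lt_of_lt_of_le hg0 (hg ▸ le_ph hp x)
  have hall := ext_all (k := k) (g := g) hp hm1 (by linarith : (0:ℝ) ≤ B) rfl hg0 hg1 h
  set A := X (L + k) with hA
  have hA0 : 0 < A := hX.1 _
  have hmA : m0 ≤ A := hN _ (by omega)
  have hA1 : A ≤ 1 := by
    have h1 := hX.2 (L + k)
    have e1 : L + k + k + 1 = L + 2 * k + 1 := by ring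
    have e2 : L + k + k = L + 2 * k := by ring
    rw [e1, e2] at h1
    by_contra hc
    push Not at hc
    have h2 : 1 < 1 - p + p * X (L + k) := by
      have := mul_lt_mul_of_pos_left hc hp
      linarith
    have h3 : X (L + 2 * k + 1) * 1 < X (L + 2 * k + 1) * (1 - p + p * X (L + k)) :=
      mul_lt_mul_of_pos_left h2 (hX.1 _)
    rw [h1, mul_one] at h3
    exact absurd hinc (not_le.2 h3)
  have hAB : A ≤ B * ∏ i ∈ range (k + 1), ph p m0 (A * g ^ i) := by
    rcases eq_or_lt_of_le hg1 with h1 | h1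
    · have hm : m0 = 1 := by
        have : p * (1 - m0) = 0 := by linarith
        rcases mul_eq_zero.1 this with h2 | h2
        · exact absurd h2 hp.ne'
        · linarith
      refine h A ?_ hA1 hmA
      rw [h1, ← hm]
      exact hmA
    · obtain ⟨j, hj⟩ := exists_pow_lt_of_lt_one hA0 h1
      refine hall j A ?_ hmA hA1
      refine le_trans ?_ hj.le
      exact pow_le_pow_of_le_one hg0.le hg1 (Nat.le_succ j)
  -- lower bounds for the previous values
  have hlow : ∀ i, i ≤ k → A * g ^ i ≤ X (L + (k - i)) := by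
    intro i
    induction i with
    | zero => intro _; simp [hA]
    | succ i ih =>
      intro hi
      have h1 := ih (by omega)
      obtain ⟨M, hM⟩ : ∃ M, L + (k - (i + 1)) = M + k := ⟨L + (k - (i + 1)) - k, by omega⟩
      have h2 := hX.2 M
      have e : L + (k - i) = M + k + 1 := by omega
      rw [e] at h1
      rw [hM, ← h2]
      have h3 : g ≤ 1 - p + p * X M := by
        have := mul_le_mul_of_nonneg_left (hN M (by omega)) hp.le
        linarith
      calc A * g ^ (i + 1) = (A * g ^ i) * g := by ring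
        _ ≤ X (M + k + 1) * (1 - p + p * X M) :=
          mul_le_mul h1 h3 hg0.le (hX.1 _).le
  have hprod : ∏ i ∈ range (k + 1), ph p m0 (A * g ^ i) ≤
      ∏ j ∈ range (k + 1), (1 - p + p * X (L + j)) := by
    rw [← Finset.prod_range_reflect (fun j => 1 - p + p * X (L + j))]
    refine Finset.prod_le_prod (fun i _ => (hph _).le) fun i hi => ?_
    rw [Finset.mem_range] at hi
    have e : k + 1 - 1 - i = k - i := by omega
    simp only [e]
    unfold ph
    have h1 : max m0 (A * g ^ i) ≤ X (L + (k - i)) :=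
      max_le (hN _ (by omega)) (hlow i (by omega))
    have := mul_le_mul_of_nonneg_left h1 hp.le
    linarith
  have hit := iter hX L (k + 1)
  have e3 : L + (k + 1) + k = L + 2 * k + 1 := by ring
  rw [e3] at hit
  have hP : 0 < ∏ i ∈ range (k + 1), ph p m0 (A * g ^ i) := Finset.prod_pos fun i _ => hph _
  have h5 : X (L + 2 * k + 1) * ∏ i ∈ range (k + 1), ph p m0 (A * g ^ i) ≤
      B * ∏ i ∈ range (k + 1), ph p m0 (A * g ^ i) := by
    calc _ ≤ X (L + 2 * k + 1) * ∏ j ∈ range (k + 1), (1 - p + p * X (L + j)) :=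
          mul_le_mul_of_nonneg_left hprod (hX.1 _).le
      _ = A := hit
      _ ≤ _ := hAB
  exact le_of_mul_le_mul_right h5 hP

end

/-- a solution which is eventually decreasing converges to `1` -/
theorem dec_lim {k : ℕ} {p : ℝ} {X : ℕ → ℝ} (hp : 0 < p) (hX : SolX k p X) {N : ℕ}
    (hdec : ∀ n, N ≤ n → X (n + 1) < X n) : Tendsto X atTop (𝓝 1) := by
  have hanti : Antitone fun n => X (n + N) := by
    refine antitone_nat_of_succ_le fun n => ?_
    have := hdec (n + N) (by omega)
    have e : n + 1 + N = n + N + 1 := by ring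
    rw [e]
    exact this.le
  have hbdd : BddBelow (Set.range fun n => X (n + N)) :=
    ⟨0, by rintro _ ⟨n, rfl⟩; exact (hX.1 _).le⟩
  obtain ⟨l, hl⟩ : ∃ l, Tendsto (fun n => X (n + N)) atTop (𝓝 l) :=
    ⟨_, tendsto_atTop_ciInf hanti hbdd⟩
  have hl' : Tendsto X atTop (𝓝 l) := (tendsto_add_atTop_iff_nat N).1 hl
  have hl1 : Tendsto (fun n => X (n + k + 1)) atTop (𝓝 l) :=
    (tendsto_add_atTop_iff_nat (k + 1)).2 hl'
  have hl2 : Tendsto (fun n => X (n + k)) atTop (𝓝 l) := (tendsto_add_atTop_iff_nat k).2 hl'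
  have hl3 : Tendsto (fun n => X (n + k + 1) * (1 - p + p * X n)) atTop
      (𝓝 (l * (1 - p + p * l))) :=
    hl1.mul (tendsto_const_nhds.add (tendsto_const_nhds.mul hl'))
  have hl4 : Tendsto (fun n => X (n + k + 1) * (1 - p + p * X n)) atTop (𝓝 l) := by
    refine hl2.congr fun n => ?_
    rw [hX.2 n]
  have heq : l * (1 - p + p * l) = l := tendsto_nhds_unique hl3 hl4
  have h0 : p * (l * (l - 1)) = 0 := by linarith
  rcases mul_eq_zero.1 h0 with h | h
  · exact absurd h hp.ne'
  rcases mul_eq_zero.1 h with h | h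
  · exfalso
    subst h
    have h1 : ∀ᶠ n in atTop, X n < 1 := hl'.eventually (gt_mem_nhds (by norm_num))
    obtain ⟨n, hn, hnN⟩ := (h1.and (eventually_ge_atTop N)).exists
    have h2 := hX.2 n
    have h3 := hdec (n + k) (by omega)
    have h4 : 1 - p + p * X n < 1 := by
      have := mul_lt_mul_of_pos_left hn hp
      linarith
    have h5 : X (n + k + 1) * (1 - p + p * X n) < X (n + k + 1) * 1 :=
      mul_lt_mul_of_pos_left h4 (hX.1 _)
    rw [h2, mul_one] at h5
    exact lt_asymm h3 h5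
  · have : l = 1 := by linarith
    rw [← this]
    exact hl'

theorem extU : ExtUStmt := by
  intro k p X hp hp1 hX m0 B hm0 hm1 hB h hev
  obtain ⟨N0, hN0⟩ := eventually_atTop.1 hev
  have hcl : ∀ n, N0 + 3 * k ≤ n → X n ≤ X (n + 1) → X (n + 1) ≤ B := by
    intro n hn hinc
    obtain ⟨L, rfl⟩ : ∃ L, n = L + 2 * k := ⟨n - 2 * k, by omega⟩
    exact claim hp hp1 hm0 hm1 hB hX h (fun n hn => hN0 n hn) (by omega) hinc
  by_cases hd : ∀ n, N0 + 3 * k ≤ n → X (n + 1) < X n
  · exact Or.inl (dec_lim hp hX hd)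
  · right
    push Not at hd
    obtain ⟨n0, hn0, hinc⟩ := hd
    refine eventually_atTop.2 ⟨n0 + 1, fun n hn => ?_⟩
    induction n, hn using Nat.le_induction with
    | base => exact hcl n0 hn0 hinc
    | succ n hn ih =>
      rcases lt_or_ge (X (n + 1)) (X n) with h1 | h1
      · exact h1.le.trans ih
      · exact hcl n (by omega) h1

end Pool.Agent.Helper55.DL
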