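import Pool.Agent.Helper30.DL.GoalsD

/-!
Packet RGN (MP_b4564f_an): the region, by Cauchy-Schwarz.
-/

set_option autoImplicit false

open Complex (I)
open Finset Pool.Agent.Helper30.DL

namespace Pool.Agent.Helper55.DL

lemma cs_bound {k : ℕ} (a δ : ℕ → ℝ) {c : ℝ} (h : ∀ j < k, -c ≤ δ j ∧ δ j ≤ c) :
    (∑ j ∈ range k, a j * δ j) ^ 2 ≤ c ^ 2 * (k * ∑ j ∈ range k, a j ^ 2) := by
  have h1 := Finset.sum_mul_sq_le_sq_mul_sq (range k) a δ
  have h2 : ∑ j ∈ range k, δ j ^ 2 ≤ k * c ^ 2 := by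
    have : ∑ j ∈ range k, δ j ^ 2 ≤ ∑ j ∈ range k, c ^ 2 := by
      apply Finset.sum_le_sum
      intro j hj
      obtain ⟨h3, h4⟩ := h j (mem_range.mp hj)
      exact sq_le_sq' h3 h4
    simpa using this
  have h3 : 0 ≤ ∑ j ∈ range k, a j ^ 2 := Finset.sum_nonneg (fun _ _ => sq_nonneg _)
  calc (∑ j ∈ range k, a j * δ j) ^ 2 ≤ (∑ j ∈ range k, a j ^ 2) * ∑ j ∈ range k, δ j ^ 2 := h1
    _ ≤ (∑ j ∈ range k, a j ^ 2) * (k * c ^ 2) := mul_le_mul_of_nonneg_left h2 h3
    _ = c ^ 2 * (k * ∑ j ∈ range k, a j ^ 2) := by ring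

lemma re_sq (z : ℂ) : z.re ^ 2 = (Complex.normSq z + (z ^ 2).re) / 2 := by
  rw [Complex.normSq_apply, sq z, Complex.mul_re]; ring

lemma im_sq (z : ℂ) : z.im ^ 2 = (Complex.normSq z - (z ^ 2).re) / 2 := by
  rw [Complex.normSq_apply, sq z, Complex.mul_re]; ring

lemma re_sum (k : ℕ) (f : ℕ → ℂ) : (∑ j ∈ range k, f j).re = ∑ j ∈ range k, (f j).re := by
  exact map_sum Complex.reAddGroupHom f (range k)

lemma im_sum (k : ℕ) (f : ℕ → ℂ) : (∑ j ∈ range k, f j).im = ∑ j ∈ range k, (f j).im := by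
  exact map_sum Complex.imAddGroupHom f (range k)

/-- summation by parts -/
lemma parts (L : ℂ) (w : ℕ → ℝ) (k : ℕ) :
    L ^ k * (w k : ℂ) + ∑ j ∈ range k, L ^ j * ((w j - w (j + 1) : ℝ) : ℂ) =
      (w 0 : ℂ) + ∑ i ∈ range k, (L - 1) * L ^ i * (w (i + 1) : ℂ) := by
  induction k with
  | zero => simp
  | succ k ih =>
    rw [sum_range_succ, sum_range_succ]
    have : L ^ (k + 1) * (w (k + 1) : ℂ) + (∑ j ∈ range k, L ^ j * ((w j - w (j + 1) : ℝ) : ℂ)
        + L ^ k * ((w k - w (k + 1) : ℝ) : ℂ)) =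
        (L ^ k * (w k : ℂ) + ∑ j ∈ range k, L ^ j * ((w j - w (j + 1) : ℝ) : ℂ))
        + (L - 1) * L ^ k * (w (k + 1) : ℂ) := by
      push_cast
      ring
    rw [this, ih]
    ring

lemma geo (L : ℂ) (k : ℕ) : ∑ i ∈ range k, (L - 1) * L ^ i = L ^ k - 1 := by
  induction k with
  | zero => simp
  | succ k ih => rw [sum_range_succ, ih]; ring

theorem rgn (hC : CstStmt) (_hW : WndStmt) : RgnStmt := by
  intro k hk t ht w m M D1 D2 hw hd
  obtain ⟨ht0, -, hkt, -, hpp, -, hlk, -, hlam1, hlamc, -, -, -, hlkc, -, -, -, -, -, -, -, hkn, -,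
    hDm, hex, hG⟩ := hC k hk t ht
  have hθ : 0 < th t := by unfold th; linarith
  have hθ' : th t ≠ 0 := hθ.ne'
  have hθc : (th t : ℂ) ≠ 0 := by exact_mod_cast hθ'
  set L := lam t with hL
  set κ := kap t with hκ
  have hnL : Complex.normSq L = 1 := by
    have h1 : L * (starRingEnd ℂ) L = 1 := hlamc
    rw [Complex.mul_conj] at h1
    exact_mod_cast h1
  have hS : ∀ n : ℕ, 1 ≤ n → n ≤ 4 → Sg t n = (th t : ℂ) * ∑ j ∈ range k, L ^ (n * j) := by
    intro n hn hn4
    have h1 := hG 0 (by norm_num) (n : ℤ) (by omega) (by omega)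
    have h2 : Gg t 0 (n : ℤ) = Sg t n := by
      rcases n with _ | n
      · omega
      · rfl
    rw [h2] at h1
    rw [h1]
    congr 1
    apply sum_congr rfl
    intro j _
    rw [pow_zero, one_mul, hex ((n : ℤ) * (j : ℤ))]
    have : ((n : ℤ) * (j : ℤ)) = ((n * j : ℕ) : ℤ) := by push_cast; ring
    rw [this, zpow_natCast]
  have hS1 : Sg t 1 = (th t : ℂ) * ∑ j ∈ range k, L ^ j := by
    have := hS 1 le_rfl (by norm_num)
    simpa using this
  have hS2 : Sg t 2 = (th t : ℂ) * ∑ j ∈ range k, L ^ (2 * j) := hS 2 (by norm_num) (by norm_num)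
  constructor
  · -- first inequality
    have e1 : zt k t w k - w k * (1 - (κ * lk t).re) + (D2 - D1) / (2 * th t) * (κ * Sg t 1).re
        = - ∑ j ∈ range k, (κ * L ^ j).re * ((w j - w (j + 1)) - (D2 - D1) / 2) := by
      have h1 : zt k t w k = w k - (κ * (L ^ k * (w k : ℂ)
          + ∑ j ∈ range k, L ^ j * ((w j - w (j + 1) : ℝ) : ℂ))).re := by
        unfold zt Xf Zf
        rw [Nat.sub_self, pow_zero, mul_one]
      have h2 : (κ * (L ^ k * (w k : ℂ)
          + ∑ j ∈ range k, L ^ j * ((w j - w (j + 1) : ℝ) : ℂ))).re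
          = (κ * lk t).re * w k + ∑ j ∈ range k, (κ * L ^ j).re * (w j - w (j + 1)) := by
        rw [mul_add, Complex.add_re, mul_sum, re_sum, ← mul_assoc, hlk, Complex.re_mul_ofReal]
        congr 1
        apply sum_congr rfl
        intro j _
        rw [← mul_assoc, Complex.re_mul_ofReal]
      have h3 : (κ * Sg t 1).re = th t * ∑ j ∈ range k, (κ * L ^ j).re := by
        rw [hS1, ← re_sum, ← Complex.re_ofReal_mul, ← mul_sum]
        congr 1
        ring
      rw [h1, h2, h3]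
      have h4 : ∑ j ∈ range k, (κ * L ^ j).re * ((w j - w (j + 1)) - (D2 - D1) / 2)
          = ∑ j ∈ range k, (κ * L ^ j).re * (w j - w (j + 1))
            - (D2 - D1) / 2 * ∑ j ∈ range k, (κ * L ^ j).re := by
        rw [mul_sum, ← sum_sub_distrib]
        apply sum_congr rfl
        intro j _
        ring
      rw [h4]
      field_simp
      ring
    have e2 : th t * ∑ j ∈ range k, (κ * L ^ j).re ^ 2
        = (kt t * kn t + (κ ^ 2 * Sg t 2).re) / 2 := by
      have h1 : ∀ j ∈ range k, (κ * L ^ j).re ^ 2 = (kn t + (κ ^ 2 * L ^ (2 * j)).re) / 2 := by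
        intro j _
        rw [re_sq, Complex.normSq_mul, hkn, map_pow, hnL, one_pow, mul_one, mul_pow, ← pow_mul,
          mul_comm j 2]
      rw [sum_congr rfl h1, ← sum_div, sum_add_distrib, sum_const, card_range, nsmul_eq_mul,
        ← re_sum, ← mul_sum, hS2, ← hkt]
      have h2 : (κ ^ 2 * ((th t : ℂ) * ∑ j ∈ range k, L ^ (2 * j))).re
          = th t * (κ ^ 2 * ∑ j ∈ range k, L ^ (2 * j)).re := by
        rw [← Complex.re_ofReal_mul]
        congr 1
        ring
      rw [h2]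
      ring
    rw [e1, neg_sq, ← e2]
    refine (cs_bound (fun j => (κ * L ^ j).re) (fun j => (w j - w (j + 1)) - (D2 - D1) / 2)
      (c := (D2 + D1) / 2) ?_).trans (le_of_eq ?_)
    · intro j hj
      obtain ⟨h1, h2⟩ := hd j hj
      constructor <;> linarith
    · rw [← hkt]
      field_simp
  · -- second inequality
    have hdl : (th t : ℂ) * dl t 1 = 1 - L := by
      have := (hDm 1 le_rfl (by norm_num)).2.1
      rwa [pow_one] at this
    have hnp : Complex.normSq (L - 1) = pp t ^ 2 := by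
      have h1 : Complex.normSq (lk t) = 1 := by
        have h2 : lk t * (starRingEnd ℂ) (lk t) = 1 := hlkc
        rw [Complex.mul_conj] at h2
        exact_mod_cast h2
      rw [hlam1, Complex.normSq_neg, Complex.normSq_mul, Complex.normSq_ofReal]
      unfold cj
      rw [Complex.normSq_conj, h1]; ring
    have e1 : (Xf k t w).im - κ.im * w 0 - (M - m) / 2 * (κ * (lk t - 1)).im
        = ∑ i ∈ range k, (κ * ((L - 1) * L ^ i)).im * (w (i + 1) - (M - m) / 2) := by
      have h1 : Xf k t w = κ * ((w 0 : ℂ) + ∑ i ∈ range k, (L - 1) * L ^ i * (w (i + 1) : ℂ)) := by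
        unfold Xf Zf
        rw [parts]
      have h2 : (Xf k t w).im = κ.im * w 0
          + ∑ i ∈ range k, (κ * ((L - 1) * L ^ i)).im * w (i + 1) := by
        rw [h1, mul_add, Complex.add_im, Complex.im_mul_ofReal, mul_sum, im_sum]
        congr 1
        apply sum_congr rfl
        intro j _
        rw [← mul_assoc, Complex.im_mul_ofReal]
      have h3 : (κ * (lk t - 1)).im = ∑ i ∈ range k, (κ * ((L - 1) * L ^ i)).im := by
        rw [← hlk, ← geo, mul_sum, im_sum]
      rw [h2, h3, mul_sum]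
      rw [add_sub_cancel_left, ← sum_sub_distrib]
      apply sum_congr rfl
      intro i _
      ring
    have e2 : th t ^ 2 * ∑ i ∈ range k, (κ * ((L - 1) * L ^ i)).im ^ 2
        = th t ^ 2 * (th t * ((kt t * kn t * ph t ^ 2 - (κ ^ 2 * dl t 1 ^ 2 * Sg t 2).re) / 2)) := by
      have h1 : ∀ i ∈ range k, (κ * ((L - 1) * L ^ i)).im ^ 2
          = (kn t * pp t ^ 2 - (κ ^ 2 * (L - 1) ^ 2 * L ^ (2 * i)).re) / 2 := by
        intro i _
        rw [im_sq, Complex.normSq_mul, hkn, Complex.normSq_mul, hnp, map_pow, hnL, one_pow, mul_one]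
        congr 3
        ring
      rw [sum_congr rfl h1, ← sum_div, sum_sub_distrib, sum_const, card_range, nsmul_eq_mul,
        ← re_sum, ← mul_sum]
      have h2 : (κ ^ 2 * (L - 1) ^ 2 * ∑ i ∈ range k, L ^ (2 * i)).re
          = th t * (κ ^ 2 * dl t 1 ^ 2 * Sg t 2).re := by
        rw [← Complex.re_ofReal_mul, hS2]
        congr 1
        have : (L - 1) ^ 2 = ((th t : ℂ) * dl t 1) ^ 2 := by rw [hdl]; ring
        rw [this]
        ring
      rw [h2, ← hkt, hpp]
      ring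
    have e3 : ∑ i ∈ range k, (κ * ((L - 1) * L ^ i)).im ^ 2
        = th t * ((kt t * kn t * ph t ^ 2 - (κ ^ 2 * dl t 1 ^ 2 * Sg t 2).re) / 2) :=
      mul_left_cancel₀ (pow_ne_zero 2 hθ') e2
    rw [e1]
    refine (cs_bound (fun i => (κ * ((L - 1) * L ^ i)).im) (fun i => w (i + 1) - (M - m) / 2)
      (c := (M + m) / 2) ?_).trans (le_of_eq ?_)
    · intro j hj
      obtain ⟨h1, h2⟩ := hw (j + 1) hj
      constructor <;> linarith
    · rw [e3, ← hkt]
      ring

end Pool.Agent.Helper55.DL
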